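import Pool.Agent.Lib.MP_7f572a_co.Main
set_option autoImplicit false
namespace Pool.Agent.Results.MP_7f572a_co.BdimUnbounded

open Pool.Agent.CG

/-- Q2 has a negative answer: there are convex geometries with local dimension at most `5` and
arbitrarily large Boolean dimension. -/
theorem result : ∀ N : ℕ, ∃ (n : ℕ) (C : Set (Set (Fin n))), 1 ≤ n ∧ IsConvexGeometry C ∧
    ldim ↥C ≤ 5 ∧ N ≤ bdim ↥C :=
  main_result.2

end Pool.Agent.Results.MP_7f572a_co.BdimUnbounded
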