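import Pool.Agent.Lib.MP_7f572a_co.Main
set_option autoImplicit false
namespace Pool.Agent.Results.MP_7f572a_co.LdimUnbounded

open Pool.Agent.CG

/-- Q1 has a negative answer: there are convex geometries with Boolean dimension at most `16` and
arbitrarily large local dimension. -/
theorem result : ∀ N : ℕ, ∃ (n : ℕ) (C : Set (Set (Fin n))), 1 ≤ n ∧ IsConvexGeometry C ∧
    bdim ↥C ≤ 16 ∧ N ≤ ldim ↥C :=
  main_result.1

end Pool.Agent.Results.MP_7f572a_co.LdimUnbounded
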